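import Mathlib

/-!
# The quadratic form of the Kikuchi matrix, `r = 2`
-/

set_option autoImplicit false

open Finset Matrix

namespace Pool.Agent.Q8.KK

variable {n l : ℕ}

/-- the index set -/
abbrev KS (n l : ℕ) := {K : Finset (Fin n) // K.card = l}

/-- the matrix -/
def MM (l : ℕ) (W : Finset (Fin n) → ℝ) : Matrix (KS n l) (KS n l) ℝ :=
  Matrix.of fun I J => if (symmDiff I.1 J.1).card = 2 then W (symmDiff I.1 J.1) else 0

/-- the quadratic form -/
def qf (v : KS n l → ℝ) (W : Finset (Fin n) → ℝ) : ℝ := dotProduct v (Matrix.mulVec (MM l W) v)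

/-- the pairs -/
def P2 (n : ℕ) : Finset (Finset (Fin n)) := univ.filter (fun D => D.card = 2)

lemma mem_P2 {D : Finset (Fin n)} : D ∈ P2 n ↔ D.card = 2 := by simp [P2]

/-- the coefficients -/
def xx (v : KS n l → ℝ) (D : Finset (Fin n)) : ℝ :=
  ∑ p ∈ univ.filter (fun p : KS n l × KS n l => symmDiff p.1.1 p.2.1 = D), v p.1 * v p.2

lemma qf_sum (v : KS n l → ℝ) (W : Finset (Fin n) → ℝ) :
    qf v W = ∑ p : KS n l × KS n l, v p.1 * ((if (symmDiff p.1.1 p.2.1).card = 2 then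
      W (symmDiff p.1.1 p.2.1) else 0) * v p.2) := by
  rw [Fintype.sum_prod_type, qf, dotProduct]
  refine sum_congr rfl fun I _ => ?_
  rw [mulVec, dotProduct, mul_sum]
  rfl

lemma qf_eq (v : KS n l → ℝ) (W : Finset (Fin n) → ℝ) :
    qf v W = ∑ D ∈ P2 n, W D * xx v D := by
  rw [qf_sum]
  have h1 : ∀ p : KS n l × KS n l, v p.1 * ((if (symmDiff p.1.1 p.2.1).card = 2 then
      W (symmDiff p.1.1 p.2.1) else 0) * v p.2) =
      ∑ D ∈ P2 n, if symmDiff p.1.1 p.2.1 = D then W D * (v p.1 * v p.2) else 0 := by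
    intro p
    rw [sum_ite_eq]
    simp only [mem_P2]
    split_ifs <;> ring
  simp_rw [h1]
  rw [sum_comm]
  refine sum_congr rfl fun D _ => ?_
  rw [← sum_filter, xx, mul_sum]

lemma qf_add (v : KS n l → ℝ) (W W' : Finset (Fin n) → ℝ) :
    qf v (W + W') = qf v W + qf v W' := by
  rw [qf_eq, qf_eq, qf_eq, ← sum_add_distrib]
  refine sum_congr rfl fun D _ => ?_
  simp only [Pi.add_apply]
  ring

lemma qf_smul (v : KS n l → ℝ) (c : ℝ) (W : Finset (Fin n) → ℝ) :
    qf v (c • W) = c * qf v W := by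
  rw [qf_eq, qf_eq, mul_sum]
  refine sum_congr rfl fun D _ => ?_
  simp only [Pi.smul_apply, smul_eq_mul]
  ring

/-- the second elementary symmetric function -/
lemma e2 (f : Fin n → ℝ) : ∑ D ∈ P2 n, ∏ i ∈ D, f i = ((∑ i, f i) ^ 2 - ∑ i, f i ^ 2) / 2 := by
  have h1 : ∀ D ∈ P2 n, ∑ p ∈ D.offDiag, f p.1 * f p.2 = 2 * ∏ i ∈ D, f i := by
    intro D hD
    rw [mem_P2] at hD
    obtain ⟨a, b, hab, rfl⟩ := card_eq_two.1 hD
    rw [prod_pair hab]
    have h2 : ({a, b} : Finset (Fin n)).offDiag = {(a, b), (b, a)} := by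
      ext ⟨x, y⟩
      simp only [mem_offDiag, mem_insert, mem_singleton, Prod.mk.injEq]
      constructor
      · rintro ⟨h1 | h1, h2 | h2, h3⟩ <;> subst h1 <;> subst h2 <;> simp_all
      · rintro (⟨h1, h2⟩ | ⟨h1, h2⟩) <;> subst h1 <;> subst h2 <;> simp [hab, hab.symm]
    rw [h2, sum_pair (by simp [hab])]
    ring
  have h3 : ∑ D ∈ P2 n, ∑ p ∈ D.offDiag, f p.1 * f p.2 =
      ∑ p ∈ (univ : Finset (Fin n)).offDiag, f p.1 * f p.2 := by
    have h4 : ∀ D ∈ P2 n, ∑ p ∈ D.offDiag, f p.1 * f p.2 =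
        ∑ p ∈ (univ : Finset (Fin n)).offDiag,
          if D = {p.1, p.2} then f p.1 * f p.2 else 0 := by
      intro D hD
      rw [← sum_filter]
      refine sum_congr ?_ fun _ _ => rfl
      ext ⟨x, y⟩
      simp only [mem_offDiag, mem_filter, mem_univ, true_and]
      rw [mem_P2] at hD
      constructor
      · rintro ⟨hx, hy, hxy⟩
        refine ⟨hxy, ?_⟩
        refine (eq_of_subset_of_card_le ?_ ?_).symm
        · intro z hz
          simp only [mem_insert, mem_singleton] at hz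
          rcases hz with rfl | rfl <;> assumption
        · rw [card_pair hxy, hD]
      · rintro ⟨hxy, rfl⟩
        simp [hxy]
    rw [sum_congr rfl h4, sum_comm]
    refine sum_congr rfl fun p hp => ?_
    rw [sum_ite_eq', if_pos]
    rw [mem_P2]
    exact card_pair (mem_offDiag.1 hp).2.2
  have h5 : ∑ p ∈ (univ : Finset (Fin n)).offDiag, f p.1 * f p.2 = (∑ i, f i) ^ 2 - ∑ i, f i ^ 2 := by
    have h6 : (∑ i, f i) ^ 2 = ∑ p ∈ (univ : Finset (Fin n)) ×ˢ (univ : Finset (Fin n)),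
        f p.1 * f p.2 := by
      rw [sq, sum_mul_sum, sum_product]
    have h7 : ∑ p ∈ (univ : Finset (Fin n)).diag, f p.1 * f p.2 = ∑ i, f i ^ 2 := by
      rw [sum_diag]
      exact sum_congr rfl fun i _ => (sq _).symm
    rw [h6, ← diag_union_offDiag, sum_union (disjoint_diag_offDiag _), h7]
    ring
  rw [← h5, ← h3, sum_congr rfl h1, ← mul_sum]
  ring

/-- the occupation -/
def pp (v : KS n l → ℝ) (i : Fin n) : ℝ := ∑ I : KS n l, if i ∈ I.1 then v I ^ 2 else 0

lemma pp_nonneg (v : KS n l → ℝ) (i : Fin n) : 0 ≤ pp v i :=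
  sum_nonneg fun I _ => by split_ifs <;> positivity

lemma sum_pp (v : KS n l → ℝ) : ∑ i, pp v i = l * ∑ I, v I ^ 2 := by
  unfold pp
  rw [sum_comm, mul_sum]
  refine sum_congr rfl fun I _ => ?_
  rw [← sum_filter, sum_const, nsmul_eq_mul]
  congr 2
  rw [filter_mem_eq_inter, univ_inter, I.2]

lemma xx_sq (v : KS n l → ℝ) {D : Finset (Fin n)} (hD : D ∈ P2 n) :
    xx v D ^ 2 ≤ 4 * ∏ i ∈ D, pp v i := by
  rw [mem_P2] at hD
  obtain ⟨a, b, hab, rfl⟩ := card_eq_two.1 hD
  rw [prod_pair hab]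
  set S := univ.filter (fun p : KS n l × KS n l => symmDiff p.1.1 p.2.1 = {a, b}) with hS
  set f : KS n l → ℝ := fun I => if a ∈ I.1 then |v I| else 0 with hf
  set g : KS n l → ℝ := fun I => if b ∈ I.1 then |v I| else 0 with hg
  have hf0 : ∀ I, 0 ≤ f I := fun I => by simp only [hf]; split_ifs <;> positivity
  have hg0 : ∀ I, 0 ≤ g I := fun I => by simp only [hg]; split_ifs <;> positivity
  -- a pair contains one of the two elements each
  have key : ∀ p ∈ S, |v p.1 * v p.2| ≤ f p.1 * g p.2 + f p.2 * g p.1 := by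
    rintro ⟨I, J⟩ hp
    rw [hS, mem_filter] at hp
    have hp2 : symmDiff I.1 J.1 = {a, b} := hp.2
    have ha : a ∈ symmDiff I.1 J.1 := by rw [hp2]; simp
    have hb : b ∈ symmDiff I.1 J.1 := by rw [hp2]; simp
    rw [mem_symmDiff] at ha hb
    have hc1 : (I.1 \ J.1).card = (J.1 \ I.1).card := by
      have h1 := card_sdiff_add_card_inter I.1 J.1
      have h2 := card_sdiff_add_card_inter J.1 I.1
      rw [inter_comm, J.2] at h2
      rw [I.2] at h1
      omega
    have hc2 : (I.1 \ J.1).card + (J.1 \ I.1).card = 2 := by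
      have h1 : (symmDiff I.1 J.1).card = (I.1 \ J.1).card + (J.1 \ I.1).card := by
        rw [symmDiff_def, sup_eq_union, card_union_of_disjoint]
        exact disjoint_sdiff_sdiff
      rw [← h1, hp2, card_pair hab]
    have hI1 : (I.1 \ J.1).card = 1 := by omega
    have hJ1 : (J.1 \ I.1).card = 1 := by omega
    have hn1 : ¬ (a ∈ I.1 \ J.1 ∧ b ∈ I.1 \ J.1) := by
      rintro ⟨h1, h2⟩
      exact hab (card_le_one.1 hI1.le _ h1 _ h2)
    have hn2 : ¬ (a ∈ J.1 \ I.1 ∧ b ∈ J.1 \ I.1) := by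
      rintro ⟨h1, h2⟩
      exact hab (card_le_one.1 hJ1.le _ h1 _ h2)
    rw [mem_sdiff, mem_sdiff] at hn1 hn2
    show |v I * v J| ≤ f I * g J + f J * g I
    rw [abs_mul]
    rcases ha with ha | ha <;> rcases hb with hb | hb
    · exact absurd ⟨ha, hb⟩ hn1
    · have e1 : f I = |v I| := by simp [hf, ha.1]
      have e2 : g J = |v J| := by simp [hg, hb.1]
      rw [e1, e2]
      have := mul_nonneg (hf0 J) (hg0 I)
      linarith
    · have e1 : f J = |v J| := by simp [hf, ha.1]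
      have e2 : g I = |v I| := by simp [hg, hb.1]
      rw [e1, e2]
      have := mul_nonneg (hf0 I) (hg0 J)
      rw [mul_comm |v J|]
      linarith
    · exact absurd ⟨ha, hb⟩ hn2
  have hinj1 : Set.InjOn (fun p : KS n l × KS n l => p.1) (S : Set (KS n l × KS n l)) := by
    rintro ⟨I, J⟩ hp ⟨I', J'⟩ hp' h
    have h0 : I = I' := h
    subst h0
    rw [hS, mem_coe, mem_filter] at hp hp'
    have h1 : symmDiff I.1 J.1 = symmDiff I.1 J'.1 := hp.2.trans hp'.2.symm
    have h2 : J.1 = J'.1 := symmDiff_right_injective _ h1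
    rw [Subtype.ext h2]
  have hinj2 : Set.InjOn (fun p : KS n l × KS n l => p.2) (S : Set (KS n l × KS n l)) := by
    rintro ⟨I, J⟩ hp ⟨I', J'⟩ hp' h
    have h0 : J = J' := h
    subst h0
    rw [hS, mem_coe, mem_filter] at hp hp'
    have h1 : symmDiff I.1 J.1 = symmDiff I'.1 J.1 := hp.2.trans hp'.2.symm
    have h2 : I.1 = I'.1 := symmDiff_left_injective _ h1
    rw [Subtype.ext h2]
  have bd : ∀ (F : KS n l → ℝ) (π : KS n l × KS n l → KS n l),
      Set.InjOn π (S : Set (KS n l × KS n l)) → (∀ I, 0 ≤ F I) →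
      ∑ p ∈ S, F (π p) ^ 2 ≤ ∑ I, F I ^ 2 := by
    intro F π hπ hF
    rw [← sum_image (f := fun I => F I ^ 2) hπ]
    exact sum_le_sum_of_subset_of_nonneg (subset_univ _) fun _ _ _ => by positivity
  have hfp : ∑ I, f I ^ 2 = pp v a := by
    unfold pp
    refine sum_congr rfl fun I _ => ?_
    simp only [hf]
    split_ifs
    · exact sq_abs _
    · simp
  have hgp : ∑ I, g I ^ 2 = pp v b := by
    unfold pp
    refine sum_congr rfl fun I _ => ?_
    simp only [hg]
    split_ifs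
    · exact sq_abs _
    · simp
  have c1 : (∑ p ∈ S, f p.1 * g p.2) ^ 2 ≤ pp v a * pp v b := by
    refine (sum_mul_sq_le_sq_mul_sq _ _ _).trans ?_
    rw [← hfp, ← hgp]
    exact mul_le_mul (bd f _ hinj1 hf0) (bd g _ hinj2 hg0) (sum_nonneg fun _ _ => by positivity)
      (sum_nonneg fun _ _ => by positivity)
  have c2 : (∑ p ∈ S, f p.2 * g p.1) ^ 2 ≤ pp v a * pp v b := by
    refine (sum_mul_sq_le_sq_mul_sq _ _ _).trans ?_
    rw [← hfp, ← hgp]
    exact mul_le_mul (bd f _ hinj2 hf0) (bd g _ hinj1 hg0) (sum_nonneg fun _ _ => by positivity)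
      (sum_nonneg fun _ _ => by positivity)
  have c3 : |xx v {a, b}| ≤ ∑ p ∈ S, f p.1 * g p.2 + ∑ p ∈ S, f p.2 * g p.1 := by
    rw [← sum_add_distrib]
    exact (abs_sum_le_sum_abs _ _).trans (sum_le_sum key)
  rw [← sq_abs]
  have c4 : |xx v {a, b}| ^ 2 ≤ (∑ p ∈ S, f p.1 * g p.2 + ∑ p ∈ S, f p.2 * g p.1) ^ 2 :=
    pow_le_pow_left₀ (abs_nonneg _) c3 2
  nlinarith [sq_nonneg (∑ p ∈ S, f p.1 * g p.2 - ∑ p ∈ S, f p.2 * g p.1)]

lemma sum_xx_sq {v : KS n l → ℝ} (hv : dotProduct v v = 1) :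
    ∑ D ∈ P2 n, xx v D ^ 2 ≤ 2 * (l : ℝ) ^ 2 := by
  have h1 : ∑ I, v I ^ 2 = 1 := by
    rw [← hv, dotProduct]
    exact sum_congr rfl fun I _ => sq _
  refine (sum_le_sum fun D hD => xx_sq v hD).trans ?_
  rw [← mul_sum, e2, sum_pp, h1, mul_one]
  have h2 : 0 ≤ ∑ i, pp v i ^ 2 := sum_nonneg fun _ _ => by positivity
  linarith

/-! ### the signs -/

/-- the character -/
noncomputable def ch (s : Fin n → ℤˣ) (D : Finset (Fin n)) : ℝ := ∏ i ∈ D, (((s i : ℤˣ) : ℤ) : ℝ)

lemma unit_sq (u : ℤˣ) : ((u : ℤ) : ℝ) * ((u : ℤ) : ℝ) = 1 := by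
  rcases Int.units_eq_one_or u with h | h <;> simp [h]

lemma ch_sq (s : Fin n → ℤˣ) (D : Finset (Fin n)) : ch s D * ch s D = 1 := by
  rw [ch, ← prod_mul_distrib]
  exact prod_eq_one fun i _ => unit_sq _

lemma ch_symmDiff (s : Fin n → ℤˣ) (I J : Finset (Fin n)) :
    ch s (symmDiff I J) = ch s I * ch s J := by
  have h1 : ch s I = ch s (I \ J) * ch s (I ∩ J) := by
    rw [ch, ch, ch, ← prod_union (disjoint_sdiff_inter I J), sdiff_union_inter]
  have h2 : ch s J = ch s (J \ I) * ch s (I ∩ J) := by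
    rw [inter_comm, ch, ch, ch, ← prod_union (disjoint_sdiff_inter J I), sdiff_union_inter]
  have h3 : ch s (symmDiff I J) = ch s (I \ J) * ch s (J \ I) := by
    rw [ch, ch, ch, symmDiff_def, sup_eq_union, prod_union disjoint_sdiff_sdiff]
  rw [h1, h2, h3]
  have := ch_sq s (I ∩ J)
  linear_combination (-(ch s (I \ J) * ch s (J \ I))) * this

lemma ch_mul (s t : Fin n → ℤˣ) (D : Finset (Fin n)) : ch (s * t) D = ch s D * ch t D := by
  rw [ch, ch, ch, ← prod_mul_distrib]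
  refine prod_congr rfl fun i _ => ?_
  simp

/-- the gauge transformation -/
lemma qf_gauge (s : Fin n → ℤˣ) (v : KS n l → ℝ) (W : Finset (Fin n) → ℝ) :
    qf v (fun D => ch s D * W D) = qf (fun I => ch s I.1 * v I) W := by
  rw [qf_sum, qf_sum]
  refine sum_congr rfl fun p _ => ?_
  split_ifs
  · rw [ch_symmDiff]
    ring
  · ring

lemma norm_gauge (s : Fin n → ℤˣ) (v : KS n l → ℝ) :
    dotProduct (fun I : KS n l => ch s I.1 * v I) (fun I : KS n l => ch s I.1 * v I) =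
      dotProduct v v := by
  rw [dotProduct, dotProduct]
  refine sum_congr rfl fun I _ => ?_
  have := ch_sq s I.1
  linear_combination (v I * v I) * this

end Pool.Agent.Q8.KK
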