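import Mathlib

/-!
# Shifts of the standard Gaussian product measure
-/

set_option autoImplicit false

open MeasureTheory ProbabilityTheory Real
open scoped ENNReal BigOperators

namespace Pool.Agent.Q8.KK

/-- the product of standard Gaussian measures -/
noncomputable abbrev gm (ι : Type) [Fintype ι] : Measure (ι → ℝ) :=
  Measure.pi fun _ : ι => gaussianReal 0 1

theorem lintegral_fin_prod {n : ℕ} (μ : Fin n → Measure ℝ)
    [∀ i, SigmaFinite (μ i)] (f : Fin n → ℝ → ℝ≥0∞) (hf : ∀ i, Measurable (f i)) :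
    ∫⁻ x : Fin n → ℝ, ∏ i, f i (x i) ∂(Measure.pi μ) = ∏ i, ∫⁻ x, f i x ∂(μ i) := by
  induction n with
  | zero => simp
  | succ n n_ih =>
      calc
        _ = ∫⁻ x : ℝ × (Fin n → ℝ),
            f 0 x.1 * ∏ i : Fin n, f (Fin.succ i) (x.2 i)
            ∂((μ 0).prod (Measure.pi (fun i ↦ μ i.succ))) := by
          rw [← ((measurePreserving_piFinSuccAbove μ 0).symm).lintegral_comp_emb
            (MeasurableEquiv.measurableEmbedding _)]
          simp_rw [MeasurableEquiv.piFinSuccAbove_symm_apply, Fin.insertNthEquiv,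
            Fin.prod_univ_succ, Fin.insertNth_zero, Equiv.coe_fn_mk, Fin.cons_succ,
            Fin.zero_succAbove, cast_eq, Fin.cons_zero]
        _ = (∫⁻ x, f 0 x ∂μ 0)
            * ∏ i : Fin n, ∫⁻ (x : ℝ), f (Fin.succ i) x ∂(μ i.succ) := by
          rw [← n_ih (fun i => μ i.succ) (fun i => f i.succ) (fun i => hf _)]
          exact lintegral_prod_mul (hf 0).aemeasurable (Finset.measurable_prod _ (fun i _ =>
            (hf _).comp (measurable_pi_apply i))).aemeasurable
        _ = ∏ i, ∫⁻ x, f i x ∂(μ i) := by rw [Fin.prod_univ_succ]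

theorem lintegral_fintype_prod {ι : Type} [Fintype ι] (μ : ι → Measure ℝ)
    [∀ i, SigmaFinite (μ i)] (f : ι → ℝ → ℝ≥0∞) (hf : ∀ i, Measurable (f i)) :
    ∫⁻ x : ι → ℝ, ∏ i, f i (x i) ∂(Measure.pi μ) = ∏ i, ∫⁻ x, f i x ∂(μ i) := by
  let e := (Fintype.equivFin ι).symm
  rw [← (measurePreserving_piCongrLeft _ e).lintegral_comp_emb
    (MeasurableEquiv.measurableEmbedding _)]
  simp_rw [← e.prod_comp, MeasurableEquiv.coe_piCongrLeft, Equiv.piCongrLeft_apply_apply]
  exact lintegral_fin_prod (fun i => μ (e i)) (fun i => f (e i)) (fun i => hf _)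

theorem pi_withDensity {ι : Type} [Fintype ι] (μ : ι → Measure ℝ) [∀ i, SigmaFinite (μ i)]
    (g : ι → ℝ → ℝ≥0∞) (hg : ∀ i, Measurable (g i)) [∀ i, SigmaFinite ((μ i).withDensity (g i))] :
    Measure.pi (fun i => (μ i).withDensity (g i)) =
      (Measure.pi μ).withDensity (fun y => ∏ i, g i (y i)) := by
  apply Measure.pi_eq
  intro s hs
  rw [withDensity_apply _ (MeasurableSet.univ_pi hs), Measure.restrict_pi_pi,
    lintegral_fintype_prod _ _ hg]
  apply Finset.prod_congr rfl
  intro i _
  rw [withDensity_apply _ (hs i)]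

/-- the density of a shifted Gaussian measure on the line -/
theorem gauss_one (a : ℝ) : gaussianReal a 1 =
    (gaussianReal 0 1).withDensity (fun x => ENNReal.ofReal (Real.exp (a * x - a ^ 2 / 2))) := by
  rw [gaussianReal_of_var_ne_zero a one_ne_zero, gaussianReal_of_var_ne_zero 0 one_ne_zero,
    ← withDensity_mul _ (measurable_gaussianPDF _ _) (by fun_prop)]
  congr 1
  funext x
  rw [Pi.mul_apply, gaussianPDF, gaussianPDF, ← ENNReal.ofReal_mul (gaussianPDFReal_nonneg _ _ _)]
  congr 1
  rw [gaussianPDFReal, gaussianPDFReal]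
  rw [mul_assoc (√(2 * π * ((1 : NNReal) : ℝ)))⁻¹, ← Real.exp_add]
  congr 2
  simp only [NNReal.coe_one]
  ring

/-- the exponential density -/
noncomputable def ld {ι : Type} [Fintype ι] (a z : ι → ℝ) : ℝ :=
  Real.exp (∑ i, a i * z i - (∑ i, a i ^ 2) / 2)

lemma ld_pos {ι : Type} [Fintype ι] (a z : ι → ℝ) : 0 < ld a z := Real.exp_pos _

lemma ld_meas {ι : Type} [Fintype ι] (a : ι → ℝ) :
    Measurable (fun z => ENNReal.ofReal (ld a z)) := by
  unfold ld
  fun_prop

lemma ld_cont {ι : Type} [Fintype ι] (a : ι → ℝ) : Continuous (ld a) := by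
  unfold ld
  fun_prop

theorem map_shift {ι : Type} [Fintype ι] (a : ι → ℝ) :
    (gm ι).map (fun z => z + a) = (gm ι).withDensity (fun z => ENNReal.ofReal (ld a z)) := by
  have h1 : (gm ι).map (fun z => z + a) = Measure.pi fun i => gaussianReal (a i) 1 := by
    have h2 : ∀ i, MeasurePreserving (fun x : ℝ => x + a i) (gaussianReal 0 1)
        (gaussianReal (a i) 1) := by
      intro i
      refine ⟨by fun_prop, ?_⟩
      rw [gaussianReal_map_add_const, zero_add]
    exact (measurePreserving_pi (fun _ : ι => gaussianReal 0 1) (fun i => gaussianReal (a i) 1)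
      h2).map_eq
  rw [h1]
  have h3 : (fun i => gaussianReal (a i) 1) = fun i => (gaussianReal 0 1).withDensity
      (fun x => ENNReal.ofReal (Real.exp (a i * x - a i ^ 2 / 2))) := by
    funext i
    exact gauss_one (a i)
  have hs : ∀ i, SigmaFinite ((gaussianReal 0 1).withDensity
      (fun x => ENNReal.ofReal (Real.exp (a i * x - a i ^ 2 / 2)))) := by
    intro i
    rw [← gauss_one]
    infer_instance
  rw [h3, pi_withDensity (fun _ : ι => gaussianReal 0 1)
    (fun i x => ENNReal.ofReal (Real.exp (a i * x - a i ^ 2 / 2))) (fun i => by fun_prop)]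
  congr 1
  funext z
  rw [← ENNReal.ofReal_prod_of_nonneg (fun i _ => (Real.exp_pos _).le), ← Real.exp_sum]
  congr 1
  rw [ld, Finset.sum_sub_distrib, Finset.sum_div]

/-- the Cameron-Martin formula -/
theorem shift {ι : Type} [Fintype ι] (a : ι → ℝ) {f : (ι → ℝ) → ℝ} (hf : Continuous f) :
    ∫ z, f (z + a) ∂(gm ι) = ∫ z, ld a z * f z ∂(gm ι) := by
  have h1 : ∫ z, f (z + a) ∂(gm ι) = ∫ z, f z ∂((gm ι).map (fun z => z + a)) := by
    rw [integral_map (by fun_prop) hf.aestronglyMeasurable]
  rw [h1, map_shift, integral_withDensity_eq_integral_toReal_smul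
    (ld_meas a) (by simp)]
  refine integral_congr_ae (Filter.Eventually.of_forall fun z => ?_)
  simp only [smul_eq_mul]
  rw [ENNReal.toReal_ofReal (ld_pos a z).le]

theorem shift_int {ι : Type} [Fintype ι] (a : ι → ℝ) {f : (ι → ℝ) → ℝ} (hf : Continuous f)
    (hi : Integrable (fun z => f (z + a)) (gm ι)) : Integrable (fun z => ld a z * f z) (gm ι) := by
  have h1 : Integrable f ((gm ι).map (fun z => z + a)) :=
    (integrable_map_measure hf.aestronglyMeasurable (by fun_prop)).2 hi
  rw [map_shift, integrable_withDensity_iff_integrable_smul'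
    (ld_meas a) (by simp)] at h1
  refine h1.congr (Filter.Eventually.of_forall fun z => ?_)
  simp only [smul_eq_mul]
  rw [ENNReal.toReal_ofReal (ld_pos a z).le]

lemma int_coord {ι : Type} [Fintype ι] (i : ι) : Integrable (fun z : ι → ℝ => z i) (gm ι) := by
  have h1 : Integrable (fun x : ℝ => x) (gaussianReal 0 1) := by
    have := (memLp_id_gaussianReal (μ := 0) (v := 1) 1).integrable le_rfl
    exact this
  have h2 : MeasurePreserving (fun z : ι → ℝ => z i) (gm ι) (gaussianReal 0 1) :=
    measurePreserving_eval _ i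
  exact h2.integrable_comp_of_integrable h1

/-- the integral of a product of two densities -/
theorem ld_mul {ι : Type} [Fintype ι] (a b : ι → ℝ) :
    Integrable (fun z => ld a z * ld b z) (gm ι) ∧
    ∫ z, ld a z * ld b z ∂(gm ι) = Real.exp (∑ i, a i * b i) := by
  have h0 : ∀ c : ι → ℝ, Integrable (fun z => ld c z) (gm ι) := by
    intro c
    have := shift_int c (f := fun _ => (1 : ℝ)) continuous_const (integrable_const _)
    simpa using this
  have h1 : ∀ z, ld a z * ld b z = Real.exp (∑ i, a i * b i) * ld (a + b) z := by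
    intro z
    simp only [ld, ← Real.exp_add]
    congr 1
    have e1 : ∑ i, (a + b) i * z i = ∑ i, a i * z i + ∑ i, b i * z i := by
      rw [← Finset.sum_add_distrib]
      refine Finset.sum_congr rfl fun i _ => ?_
      simp only [Pi.add_apply]
      ring
    have e2 : ∑ i, (a + b) i ^ 2 = ∑ i, a i ^ 2 + ∑ i, b i ^ 2 + 2 * ∑ i, a i * b i := by
      rw [Finset.mul_sum, ← Finset.sum_add_distrib, ← Finset.sum_add_distrib]
      refine Finset.sum_congr rfl fun i _ => ?_
      simp only [Pi.add_apply]
      ring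
    rw [e1, e2]
    ring
  have h2 : ∫ z, ld (a + b) z ∂(gm ι) = 1 := by
    have := shift (a + b) (f := fun _ => (1 : ℝ)) continuous_const
    simp only [mul_one, integral_const, smul_eq_mul] at this
    rw [← this]
    simp
  constructor
  · simp_rw [h1]
    exact (h0 _).const_mul _
  · simp_rw [h1]
    rw [integral_const_mul, h2, mul_one]

end Pool.Agent.Q8.KK
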