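import Pool.Agent.Q8.KK.Main

/-!
# The expectation tends to infinity
-/

set_option autoImplicit false

open Finset Matrix MeasureTheory ProbabilityTheory Filter Topology

namespace Pool.Agent.Q8.KK

variable {n l : ℕ}

lemma pair_le (I J : KS n l) (h : (symmDiff I.1 J.1).card = 2) (W : Finset (Fin n) → ℝ) :
    W (symmDiff I.1 J.1) ≤ gg l W := by
  have hIJ : I ≠ J := by
    rintro rfl
    simp at h
  set c : ℝ := (√2)⁻¹ with hc
  have hc2 : c * c = 1 / 2 := by
    rw [hc, ← mul_inv, Real.mul_self_sqrt (by norm_num), one_div]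
  set v : KS n l → ℝ := Pi.single I c + Pi.single J c with hv
  have h1 : dotProduct v v = 1 := by
    rw [hv]
    simp only [add_dotProduct, dotProduct_add, single_dotProduct, Pi.single_eq_same,
      Pi.single_eq_of_ne hIJ, Pi.single_eq_of_ne hIJ.symm, mul_zero, add_zero, zero_add]
    linarith
  have h2 : qf v W = W (symmDiff I.1 J.1) := by
    have e1 : MM l W I I = 0 := by simp [MM]
    have e2 : MM l W J J = 0 := by simp [MM]
    have e3 : MM l W I J = W (symmDiff I.1 J.1) := by simp [MM, h]
    have e4 : MM l W J I = W (symmDiff I.1 J.1) := by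
      have h' : MM l W J I = if (symmDiff J.1 I.1).card = 2 then W (symmDiff J.1 I.1) else 0 := rfl
      rw [h', symmDiff_comm, if_pos h]
    rw [qf, hv, mulVec_add, add_dotProduct, dotProduct_add, dotProduct_add, single_dotProduct,
      single_dotProduct, single_dotProduct, single_dotProduct]
    simp only [mulVec_single, Pi.smul_apply, col_apply, MulOpposite.smul_eq_mul_unop,
      MulOpposite.unop_op]
    rw [e1, e2, e3, e4]
    linear_combination (2 * W (symmDiff I.1 J.1)) * hc2
  rw [← h2]
  exact le_gg h1 W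

lemma lt_one (t : ℝ) : (gaussianReal 0 1).real (Set.Iio t) < 1 := by
  have h1 : (gaussianReal 0 1) (Set.Ici t) ≠ 0 := by
    intro h
    have h2 := gaussianReal_absolutelyContinuous' 0 (v := 1) one_ne_zero h
    simp at h2
  have h3 : (gaussianReal 0 1).real (Set.Iio t) = 1 - (gaussianReal 0 1).real (Set.Ici t) := by
    rw [← probReal_compl_eq_one_sub measurableSet_Ici]
    congr 1
    ext x
    simp
  have h4 : 0 < (gaussianReal 0 1).real (Set.Ici t) := by
    rw [Measure.real, ENNReal.toReal_pos_iff]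
    exact ⟨pos_iff_ne_zero.2 h1, measure_lt_top _ _⟩
  linarith

/-- a star of pairs -/
lemma star (hl : 1 ≤ l) (hn : l < n) : ∃ T : Finset (Finset (Fin n)), T.card = n - l ∧
    ∀ D ∈ T, ∀ W : Finset (Fin n) → ℝ, W D ≤ gg l W := by
  have h0 : 0 < n := by omega
  set a : Fin n := ⟨0, h0⟩
  obtain ⟨K, hK1, hK2⟩ := exists_subset_card_eq (s := (univ : Finset (Fin n)).erase a)
    (n := l - 1) (by rw [card_erase_of_mem (mem_univ a), card_univ, Fintype.card_fin]; omega)
  have haK : a ∉ K := fun h => (mem_erase.1 (hK1 h)).1 rfl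
  have hcK : (insert a K).card = l := by rw [card_insert_of_notMem haK, hK2]; omega
  refine ⟨((insert a K)ᶜ).image (fun j => {a, j}), ?_, ?_⟩
  · rw [card_image_of_injOn, card_compl, Fintype.card_fin, hcK]
    intro j hj j' hj' h
    have h1 : ({a, j} : Finset (Fin n)) = {a, j'} := h
    have hja : j ≠ a := by
      rintro rfl
      simp at hj
    have : j ∈ ({a, j'} : Finset (Fin n)) := by rw [← h1]; simp
    simp only [mem_insert, mem_singleton] at this
    rcases this with h | h
    · exact absurd h hja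
    · exact h
  · intro D hD W
    obtain ⟨j, hj, rfl⟩ := mem_image.1 hD
    rw [mem_compl, mem_insert, not_or] at hj
    obtain ⟨hja, hjK⟩ := hj
    have e : symmDiff (insert a K) (insert j K) = {a, j} := by
      ext x
      simp only [mem_symmDiff, mem_insert, mem_singleton]
      constructor
      · rintro (⟨h1 | h1, h2⟩ | ⟨h1 | h1, h2⟩)
        · exact Or.inl h1
        · exact absurd (Or.inr h1) h2
        · exact Or.inr h1
        · exact absurd (Or.inr h1) h2
      · rintro (h1 | h1)
        · subst h1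
          exact Or.inl ⟨Or.inl rfl, by rintro (h | h); exacts [hja h.symm, haK h]⟩
        · subst h1
          exact Or.inr ⟨Or.inl rfl, by rintro (h | h); exacts [hja h, hjK h]⟩
    have hc2 : (insert j K).card = l := by rw [card_insert_of_notMem hjK, hK2]; omega
    have h3 := pair_le (l := l) ⟨insert a K, hcK⟩ ⟨insert j K, hc2⟩
      (by show (symmDiff (insert a K) (insert j K)).card = 2
          rw [e, card_pair (Ne.symm hja)]) W
    have h4 : W (symmDiff (insert a K) (insert j K)) ≤ gg l W := h3
    rwa [e] at h4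

lemma lower (hl : 1 ≤ l) (hn : l < n) {t : ℝ} (ht : 0 ≤ t) :
    t * (1 - (gaussianReal 0 1).real (Set.Iio t) ^ (n - l)) - ∫ x, |x| ∂(gaussianReal 0 1) ≤
      ∫ Z, gg l Z ∂(gm (Finset (Fin n))) := by
  obtain ⟨T, hT, hTg⟩ := star hl hn
  have hTne : T.Nonempty := by
    rw [← card_pos, hT]
    omega
  obtain ⟨D0, hD0⟩ := hTne
  have hne : Nonempty (KS n l) := by
    obtain ⟨K, -, hK⟩ := exists_subset_card_eq (s := (univ : Finset (Fin n))) (n := l)
      (by rw [card_univ, Fintype.card_fin]; omega)
    exact ⟨⟨K, hK⟩⟩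
  set A : Set (Finset (Fin n) → ℝ) := Set.pi Set.univ
    (fun D => if D ∈ T then Set.Iio t else Set.univ) with hA
  have hAm : MeasurableSet A := by
    refine MeasurableSet.univ_pi fun D => ?_
    split_ifs
    · exact measurableSet_Iio
    · exact MeasurableSet.univ
  have hAmu : (gm (Finset (Fin n))).real A = (gaussianReal 0 1).real (Set.Iio t) ^ (n - l) := by
    rw [Measure.real, hA, Measure.pi_pi]
    have h1 : ∀ D : Finset (Fin n), (gaussianReal 0 1) (if D ∈ T then Set.Iio t else Set.univ) =
        if D ∈ T then (gaussianReal 0 1) (Set.Iio t) else 1 := by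
      intro D
      split_ifs
      · rfl
      · exact measure_univ
    simp_rw [h1]
    rw [prod_ite, prod_const_one, mul_one, prod_const, filter_mem_eq_inter, univ_inter, hT,
      ENNReal.toReal_pow]
    rfl
  have hpt : ∀ Z, Aᶜ.indicator (fun _ => t) Z - |Z D0| ≤ gg l Z := by
    intro Z
    by_cases hZ : Z ∈ A
    · rw [Set.indicator_of_notMem (by simpa using hZ)]
      have h1 := hTg D0 hD0 Z
      have h2 := neg_abs_le (Z D0)
      linarith
    · rw [Set.indicator_of_mem (by simpa using hZ)]
      rw [hA, Set.mem_univ_pi] at hZ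
      push Not at hZ
      obtain ⟨D, hD⟩ := hZ
      by_cases hDT : D ∈ T
      · rw [if_pos hDT, Set.mem_Iio, not_lt] at hD
        have h1 := hTg D hDT Z
        have h2 := abs_nonneg (Z D0)
        linarith
      · rw [if_neg hDT] at hD
        exact absurd (Set.mem_univ _) hD
  have hi1 : Integrable (Aᶜ.indicator (fun _ : Finset (Fin n) → ℝ => t)) (gm (Finset (Fin n))) :=
    (integrable_const t).indicator hAm.compl
  have hi2 : Integrable (fun Z : Finset (Fin n) → ℝ => |Z D0|) (gm (Finset (Fin n))) :=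
    (int_coord D0).abs
  have h2 := integral_mono (hi1.sub hi2) (gg_int0 hne) hpt
  have h2' : ∫ Z, (Aᶜ.indicator (fun _ : Finset (Fin n) → ℝ => t) Z - |Z D0|)
      ∂(gm (Finset (Fin n))) ≤ ∫ Z, gg l Z ∂(gm (Finset (Fin n))) := h2
  rw [integral_sub hi1 hi2, integral_indicator_const _ hAm.compl, smul_eq_mul,
    probReal_compl_eq_one_sub hAm, hAmu] at h2'
  have h3 : ∫ Z : Finset (Fin n) → ℝ, |Z D0| ∂(gm (Finset (Fin n))) =
      ∫ x, |x| ∂(gaussianReal 0 1) := by
    have h4 : MeasurePreserving (fun z : Finset (Fin n) → ℝ => z D0) (gm (Finset (Fin n)))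
      (gaussianReal 0 1) := measurePreserving_eval _ D0
    have h5 := integral_map (μ := gm (Finset (Fin n))) h4.measurable.aemeasurable
      (f := fun x : ℝ => |x|) continuous_abs.aestronglyMeasurable
    rw [h4.map_eq] at h5
    exact h5.symm
  rw [h3] at h2'
  linarith

theorem grow (hl : 1 ≤ l) (R : ℝ) :
    ∀ᶠ n : ℕ in atTop, R ≤ ∫ Z, gg l Z ∂(gm (Finset (Fin n))) := by
  set c := ∫ x, |x| ∂(gaussianReal 0 1) with hc
  have hc0 : 0 ≤ c := integral_nonneg fun _ => abs_nonneg _
  set t : ℝ := 2 * (|R| + c) with ht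
  have ht0 : 0 ≤ t := by positivity
  have hp := lt_one t
  have hp0 : 0 ≤ (gaussianReal 0 1).real (Set.Iio t) := measureReal_nonneg
  have h1 : Tendsto (fun n : ℕ => (gaussianReal 0 1).real (Set.Iio t) ^ (n - l)) atTop (𝓝 0) :=
    (tendsto_pow_atTop_nhds_zero_of_lt_one hp0 hp).comp (tendsto_sub_atTop_nat l)
  have h2 := h1.eventually (gt_mem_nhds (show (0 : ℝ) < 1 / 2 by norm_num))
  filter_upwards [h2, eventually_gt_atTop l] with n hn hn2
  have h3 := lower hl hn2 ht0
  have h4 : t * (1 / 2) ≤ t * (1 - (gaussianReal 0 1).real (Set.Iio t) ^ (n - l)) :=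
    mul_le_mul_of_nonneg_left (by linarith) ht0
  have h5 := le_abs_self R
  linarith

end Pool.Agent.Q8.KK
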