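import Pool.Agent.Q8.KK.Sup

/-!
# The difference of the expectations is bounded, and the expectation tends to infinity
-/

set_option autoImplicit false

open Finset Matrix MeasureTheory ProbabilityTheory Filter Topology

namespace Pool.Agent.Q8.KK

variable {n l : ℕ}

lemma yy_sq (c : ℝ) (D : Finset (Fin n)) (Z : Finset (Fin n) → ℝ) :
    yy c D Z ^ 2 = ((Fintype.card (Fin n → ℤˣ) : ℝ)⁻¹) ^ 2 * ∑ s : Fin n → ℤˣ, ∑ t : Fin n → ℤˣ,
      (ld (c • sp s) Z * ld (c • sp t) Z) * ch (s * t) D := by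
  rw [yy, mul_pow, sq (∑ s : Fin n → ℤˣ, ld (c • sp s) Z * ch s D), sum_mul_sum]
  congr 1
  refine sum_congr rfl fun s _ => sum_congr rfl fun t _ => ?_
  rw [ch_mul]
  ring

lemma yy_int (c : ℝ) (D : Finset (Fin n)) :
    Integrable (fun Z => yy c D Z ^ 2) (gm (Finset (Fin n))) := by
  simp_rw [yy_sq]
  refine Integrable.const_mul ?_ _
  refine integrable_finsetSum _ fun s _ => integrable_finsetSum _ fun t _ => ?_
  exact (ld_mul _ _).1.mul_const _

lemma yy_integral (c : ℝ) (D : Finset (Fin n)) :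
    ∫ Z, yy c D Z ^ 2 ∂(gm (Finset (Fin n))) = (Fintype.card (Fin n → ℤˣ) : ℝ)⁻¹ *
      ∑ s : Fin n → ℤˣ, Real.exp (c ^ 2 * TT s) * ch s D := by
  simp_rw [yy_sq]
  rw [integral_const_mul, integral_finsetSum _ fun s _ => integrable_finsetSum _ fun t _ =>
    (ld_mul _ _).1.mul_const _]
  have h1 : ∀ s ∈ (univ : Finset (Fin n → ℤˣ)), ∫ Z, ∑ t : Fin n → ℤˣ,
      (ld (c • sp s) Z * ld (c • sp t) Z) * ch (s * t) D ∂(gm (Finset (Fin n))) =
      ∑ u : Fin n → ℤˣ, Real.exp (c ^ 2 * TT u) * ch u D := by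
    intro s _
    rw [integral_finsetSum _ fun t _ => (ld_mul _ _).1.mul_const _]
    have h2 : ∀ t ∈ (univ : Finset (Fin n → ℤˣ)), ∫ Z,
        (ld (c • sp s) Z * ld (c • sp t) Z) * ch (s * t) D ∂(gm (Finset (Fin n))) =
        Real.exp (c ^ 2 * TT (s * t)) * ch (s * t) D := by
      intro t _
      rw [integral_mul_const, (ld_mul _ _).2, sum_sp]
    rw [sum_congr rfl h2]
    exact Equiv.sum_comp (Equiv.mulLeft s)
      (fun u : Fin n → ℤˣ => Real.exp (c ^ 2 * TT u) * ch u D)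
  rw [sum_congr rfl h1, sum_const, nsmul_eq_mul, card_univ]
  have h3 : (Fintype.card (Fin n → ℤˣ) : ℝ) ≠ 0 := by
    exact_mod_cast Fintype.card_ne_zero
  field_simp

lemma sum_yy (c : ℝ) : ∫ Z, ∑ D ∈ P2 n, yy c D Z ^ 2 ∂(gm (Finset (Fin n))) =
    (Fintype.card (Fin n → ℤˣ) : ℝ)⁻¹ * ∑ s : Fin n → ℤˣ, TT s * Real.exp (c ^ 2 * TT s) := by
  rw [integral_finsetSum _ fun D _ => yy_int c D]
  simp_rw [yy_integral]
  rw [← mul_sum, sum_comm]
  congr 1
  refine sum_congr rfl fun s _ => ?_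
  rw [← mul_sum, mul_comm]
  rfl

/-- the difference of the expectations -/
theorem diff_le (h : Nonempty (KS n l)) {c κ : ℝ} (hc : 0 ≤ c) (hκ : 0 < κ) :
    ∫ Z, gg l (fun D => c + Z D) ∂(gm (Finset (Fin n))) - ∫ Z, gg l Z ∂(gm (Finset (Fin n))) ≤
      c * ((2 * κ)⁻¹ * ((Fintype.card (Fin n → ℤˣ) : ℝ)⁻¹ *
        ∑ s : Fin n → ℤˣ, TT s * Real.exp (c ^ 2 * TT s)) + κ * (l : ℝ) ^ 2) := by
  have hfc : ∀ s : Fin n → ℤˣ, Continuous (fun Z : Finset (Fin n) → ℝ =>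
      gg l Z - gg l (Z - c • sp s)) := fun s =>
    (gg_cont h).sub ((gg_cont h).comp (continuous_id.sub continuous_const))
  have hfi : ∀ s : Fin n → ℤˣ, Integrable (fun Z : Finset (Fin n) → ℝ =>
      gg l (Z + c • sp s) - gg l (Z + c • sp s - c • sp s)) (gm (Finset (Fin n))) := by
    intro s
    simp_rw [add_sub_cancel_right]
    exact (gg_int h _).sub (gg_int0 h)
  have h1 : ∀ s : Fin n → ℤˣ, ∫ Z, ld (c • sp s) Z * (gg l Z - gg l (Z - c • sp s))
      ∂(gm (Finset (Fin n))) = ∫ Z, gg l (fun D => c + Z D) ∂(gm (Finset (Fin n))) -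
        ∫ Z, gg l Z ∂(gm (Finset (Fin n))) := by
    intro s
    rw [← shift (c • sp s) (hfc s)]
    simp_rw [add_sub_cancel_right]
    rw [integral_sub (gg_int h _) (gg_int0 h), int_spike h]
  have h2 : ∀ s : Fin n → ℤˣ, Integrable (fun Z => ld (c • sp s) Z *
      (gg l Z - gg l (Z - c • sp s))) (gm (Finset (Fin n))) := fun s =>
    shift_int (c • sp s) (hfc s) (hfi s)
  have h3 : ∫ Z, (Fintype.card (Fin n → ℤˣ) : ℝ)⁻¹ * ∑ s : Fin n → ℤˣ,
      ld (c • sp s) Z * (gg l Z - gg l (Z - c • sp s)) ∂(gm (Finset (Fin n))) =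
      ∫ Z, gg l (fun D => c + Z D) ∂(gm (Finset (Fin n))) -
        ∫ Z, gg l Z ∂(gm (Finset (Fin n))) := by
    rw [integral_const_mul, integral_finsetSum _ fun s _ => h2 s, sum_congr rfl fun s _ => h1 s,
      sum_const, nsmul_eq_mul, card_univ, ← mul_assoc, inv_mul_cancel₀ (by
        exact_mod_cast Fintype.card_ne_zero), one_mul]
  have hyi : Integrable (fun Z => ∑ D ∈ P2 n, yy c D Z ^ 2) (gm (Finset (Fin n))) :=
    integrable_finsetSum _ fun D _ => yy_int c D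
  rw [← h3, ← sum_yy]
  calc ∫ Z, (Fintype.card (Fin n → ℤˣ) : ℝ)⁻¹ * ∑ s : Fin n → ℤˣ,
      ld (c • sp s) Z * (gg l Z - gg l (Z - c • sp s)) ∂(gm (Finset (Fin n)))
      ≤ ∫ Z, c * ((2 * κ)⁻¹ * ∑ D ∈ P2 n, yy c D Z ^ 2 + κ * (l : ℝ) ^ 2)
        ∂(gm (Finset (Fin n))) := by
        refine integral_mono ((integrable_finsetSum _ fun s _ => h2 s).const_mul _) ?_
          fun Z => pointwise h hc hκ Z
        exact ((hyi.const_mul _).add (integrable_const _)).const_mul _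
    _ = _ := by
        rw [integral_const_mul, integral_add (hyi.const_mul _) (integrable_const _),
          integral_const_mul, integral_const]
        simp

/-! ### the second moment -/

lemma TT_le (s : Fin n → ℤˣ) : TT s ≤ (∑ i, (((s i : ℤˣ) : ℤ) : ℝ)) ^ 2 / 2 := by
  have h1 := e2 (fun i => (((s i : ℤˣ) : ℤ) : ℝ))
  have h2 : TT s = ∑ D ∈ P2 n, ∏ i ∈ D, (((s i : ℤˣ) : ℤ) : ℝ) := rfl
  rw [h2, h1]
  have h3 : 0 ≤ ∑ i, (((s i : ℤˣ) : ℤ) : ℝ) ^ 2 := sum_nonneg fun _ _ => by positivity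
  linarith

lemma mgf_one (t : ℝ) : Integrable (fun x => Real.exp (t * x)) (gaussianReal 0 1) ∧
    ∫ x, Real.exp (t * x) ∂(gaussianReal 0 1) = Real.exp (t ^ 2 / 2) := by
  constructor
  · exact integrable_exp_mul_gaussianReal t
  · have h1 := mgf_gaussianReal (p := gaussianReal 0 1) (X := id) (μ := 0) (v := 1)
      (by simp) t
    rw [mgf] at h1
    simp only [id, zero_mul, zero_add, NNReal.coe_one, one_mul] at h1
    exact h1

lemma int_quarter : Integrable (fun x => Real.exp (x ^ 2 / 4)) (gaussianReal 0 1) ∧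
    ∫ x, Real.exp (x ^ 2 / 4) ∂(gaussianReal 0 1) ≤ 3 / 2 := by
  have h0 : ∀ x : ℝ, gaussianPDFReal 0 1 x * Real.exp (x ^ 2 / 4) =
      (√(2 * Real.pi))⁻¹ * Real.exp (-(1 / 4) * x ^ 2) := by
    intro x
    rw [gaussianPDFReal, mul_assoc, ← Real.exp_add]
    congr 2
    · simp
    · simp only [NNReal.coe_one]
      ring
  constructor
  · rw [gaussianReal_of_var_ne_zero 0 one_ne_zero,
      integrable_withDensity_iff_integrable_smul' (measurable_gaussianPDF _ _)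
        (Eventually.of_forall fun x => gaussianPDF_lt_top)]
    have h1 : ∀ x : ℝ, (gaussianPDF 0 1 x).toReal • Real.exp (x ^ 2 / 4) =
        (√(2 * Real.pi))⁻¹ * Real.exp (-(1 / 4) * x ^ 2) := by
      intro x
      rw [smul_eq_mul, toReal_gaussianPDF, h0]
    simp_rw [h1]
    exact (integrable_exp_neg_mul_sq (by norm_num)).const_mul _
  · rw [integral_gaussianReal_eq_integral_smul one_ne_zero]
    simp_rw [smul_eq_mul, h0]
    rw [integral_const_mul, integral_gaussian]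
    have hpi := Real.pi_pos
    have h2 : √(Real.pi / (1 / 4)) = √2 * √(2 * Real.pi) := by
      rw [← Real.sqrt_mul (by norm_num)]
      congr 1
      ring
    rw [h2]
    have h3 : √(2 * Real.pi) ≠ 0 := by positivity
    have h4 : (√(2 * Real.pi))⁻¹ * (√2 * √(2 * Real.pi)) = √2 := by
      field_simp
    rw [h4, Real.sqrt_le_left (by norm_num)]
    norm_num

lemma moment (hn : 0 < n) : (Fintype.card (Fin n → ℤˣ) : ℝ)⁻¹ * ∑ s : Fin n → ℤˣ,
    Real.exp ((∑ i, (((s i : ℤˣ) : ℤ) : ℝ)) ^ 2 / (4 * n)) ≤ 3 / 2 := by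
  have hn' : (0 : ℝ) < n := by exact_mod_cast hn
  set θ : ℝ := (√(2 * n))⁻¹ with hθ
  have hθ2 : θ ^ 2 = 1 / (2 * n) := by
    rw [hθ, inv_pow, Real.sq_sqrt (by positivity), one_div]
  have h1 : ∀ s : Fin n → ℤˣ, Real.exp ((∑ i, (((s i : ℤˣ) : ℤ) : ℝ)) ^ 2 / (4 * n)) =
      ∫ x, Real.exp ((θ * ∑ i, (((s i : ℤˣ) : ℤ) : ℝ)) * x) ∂(gaussianReal 0 1) := by
    intro s
    rw [(mgf_one _).2]
    congr 1
    rw [mul_pow, hθ2]
    field_simp
    ring
  simp_rw [h1]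
  rw [← integral_finsetSum _ fun s _ => (mgf_one _).1]
  have hcard : (Fintype.card (Fin n → ℤˣ) : ℝ) = 2 ^ n := by
    simp
  have h2 : ∀ x : ℝ, ∑ s : Fin n → ℤˣ, Real.exp ((θ * ∑ i, (((s i : ℤˣ) : ℤ) : ℝ)) * x) ≤
      2 ^ n * Real.exp (x ^ 2 / 4) := by
    intro x
    have h3 : ∀ s : Fin n → ℤˣ, Real.exp ((θ * ∑ i, (((s i : ℤˣ) : ℤ) : ℝ)) * x) =
        ∏ i, Real.exp (θ * x * (((s i : ℤˣ) : ℤ) : ℝ)) := by
      intro s
      rw [← Real.exp_sum, ← mul_sum]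
      congr 1
      ring
    simp_rw [h3]
    rw [← Fintype.piFinset_univ, ← Finset.prod_univ_sum (fun _ => univ)
      (fun _ (u : ℤˣ) => Real.exp (θ * x * ((u : ℤ) : ℝ)))]
    rw [prod_const, card_univ, Fintype.card_fin]
    have h4 : ∑ u : ℤˣ, Real.exp (θ * x * ((u : ℤ) : ℝ)) = 2 * Real.cosh (θ * x) := by
      rw [Real.cosh_eq]
      have : (univ : Finset ℤˣ) = {1, -1} := rfl
      rw [this, sum_pair (by decide)]
      simp
      ring
    rw [h4, mul_pow]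
    refine mul_le_mul_of_nonneg_left ?_ (by positivity)
    refine (pow_le_pow_left₀ (Real.cosh_pos _).le (Real.cosh_le_exp_half_sq _) n).trans
      (le_of_eq ?_)
    rw [← Real.exp_nat_mul, mul_pow, hθ2]
    congr 1
    field_simp
    ring
  have h5 : ∫ x, ∑ s : Fin n → ℤˣ, Real.exp ((θ * ∑ i, (((s i : ℤˣ) : ℤ) : ℝ)) * x)
      ∂(gaussianReal 0 1) ≤ 2 ^ n * (3 / 2) := by
    refine (integral_mono (integrable_finsetSum _ fun s _ => (mgf_one _).1)
      (int_quarter.1.const_mul _) h2).trans ?_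
    rw [integral_const_mul]
    exact mul_le_mul_of_nonneg_left int_quarter.2 (by positivity)
  rw [hcard, inv_mul_le_iff₀ (by positivity)]
  exact h5

lemma second (hn : 0 < n) {c : ℝ} (hc : c ^ 2 = 1 / (4 * n)) :
    (Fintype.card (Fin n → ℤˣ) : ℝ)⁻¹ * ∑ s : Fin n → ℤˣ, TT s * Real.exp (c ^ 2 * TT s) ≤
      6 * n := by
  have hn' : (0 : ℝ) < n := by exact_mod_cast hn
  have h1 : ∀ s : Fin n → ℤˣ, TT s * Real.exp (c ^ 2 * TT s) ≤
      (4 * n) * Real.exp ((∑ i, (((s i : ℤˣ) : ℤ) : ℝ)) ^ 2 / (4 * n)) := by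
    intro s
    rw [hc]
    have h2 : TT s / (4 * n) ≤ Real.exp (TT s / (4 * n)) := by
      have := Real.add_one_le_exp (TT s / (4 * n))
      linarith
    have h3 : TT s ≤ (4 * n) * Real.exp (TT s / (4 * n)) := by
      rw [div_le_iff₀ (by positivity)] at h2
      linarith
    have h4 := mul_le_mul_of_nonneg_right h3 (Real.exp_pos (1 / (4 * n) * TT s)).le
    refine h4.trans ?_
    rw [mul_assoc, ← Real.exp_add]
    refine mul_le_mul_of_nonneg_left (Real.exp_le_exp.2 ?_) (by positivity)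
    have h5 := TT_le s
    rw [le_div_iff₀ (by positivity)]
    have h6 : (TT s / (4 * n) + 1 / (4 * n) * TT s) * (4 * n) = 2 * TT s := by
      field_simp
      ring
    rw [h6]
    linarith
  have h7 := moment hn
  have h8 : (Fintype.card (Fin n → ℤˣ) : ℝ)⁻¹ * ∑ s : Fin n → ℤˣ, TT s * Real.exp (c ^ 2 * TT s) ≤
      (Fintype.card (Fin n → ℤˣ) : ℝ)⁻¹ * ∑ s : Fin n → ℤˣ,
        (4 * n) * Real.exp ((∑ i, (((s i : ℤˣ) : ℤ) : ℝ)) ^ 2 / (4 * n)) :=
    mul_le_mul_of_nonneg_left (sum_le_sum fun s _ => h1 s) (by positivity)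
  refine h8.trans ?_
  rw [← mul_sum, mul_left_comm]
  have h9 := mul_le_mul_of_nonneg_left h7 (show (0 : ℝ) ≤ 4 * n by positivity)
  linarith

end Pool.Agent.Q8.KK
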