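import Pool.Agent.Q8.KK.Gauss
import Pool.Agent.Q8.KK.Form

/-!
# The largest eigenvalue of the Kikuchi matrix as a function of the noise
-/

set_option autoImplicit false

open Finset Matrix MeasureTheory ProbabilityTheory Filter Topology

namespace Pool.Agent.Q8.KK

variable {n l : ℕ}

/-- the largest eigenvalue -/
noncomputable def gg (l : ℕ) (W : Finset (Fin n) → ℝ) : ℝ :=
  sSup {t : ℝ | ∃ v : KS n l → ℝ, dotProduct v v = 1 ∧ t = qf v W}

lemma pp_le_one {v : KS n l → ℝ} (hv : dotProduct v v = 1) (i : Fin n) : pp v i ≤ 1 := by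
  rw [← hv, pp, dotProduct]
  refine sum_le_sum fun I _ => ?_
  split_ifs
  · rw [sq]
  · exact mul_self_nonneg _

lemma abs_xx_le {v : KS n l → ℝ} (hv : dotProduct v v = 1) {D : Finset (Fin n)} (hD : D ∈ P2 n) :
    |xx v D| ≤ 2 := by
  have h1 : xx v D ^ 2 ≤ 2 ^ 2 := by
    refine (xx_sq v hD).trans ?_
    have h2 : ∏ i ∈ D, pp v i ≤ 1 := prod_le_one (fun i _ => pp_nonneg v i) fun i _ => pp_le_one hv i
    linarith
  exact abs_le_of_sq_le_sq h1 (by norm_num)

lemma abs_qf_le {v : KS n l → ℝ} (hv : dotProduct v v = 1) (W : Finset (Fin n) → ℝ) :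
    |qf v W| ≤ 2 * ∑ D ∈ P2 n, |W D| := by
  rw [qf_eq, mul_sum]
  refine (abs_sum_le_sum_abs _ _).trans (sum_le_sum fun D hD => ?_)
  rw [abs_mul, mul_comm]
  exact mul_le_mul_of_nonneg_right (abs_xx_le hv hD) (abs_nonneg _)

lemma bdd (W : Finset (Fin n) → ℝ) :
    BddAbove {t : ℝ | ∃ v : KS n l → ℝ, dotProduct v v = 1 ∧ t = qf v W} := by
  refine ⟨2 * ∑ D ∈ P2 n, |W D|, ?_⟩
  rintro t ⟨v, hv, rfl⟩
  exact (le_abs_self _).trans (abs_qf_le hv W)

lemma nonemp (h : Nonempty (KS n l)) (W : Finset (Fin n) → ℝ) :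
    {t : ℝ | ∃ v : KS n l → ℝ, dotProduct v v = 1 ∧ t = qf v W}.Nonempty := by
  obtain ⟨I⟩ := h
  exact ⟨_, Pi.single I 1, by simp, rfl⟩

lemma le_gg {v : KS n l → ℝ} (hv : dotProduct v v = 1) (W : Finset (Fin n) → ℝ) :
    qf v W ≤ gg l W := le_csSup (bdd W) ⟨v, hv, rfl⟩

lemma gg_near (h : Nonempty (KS n l)) (W : Finset (Fin n) → ℝ) {η : ℝ} (hη : 0 < η) :
    ∃ v : KS n l → ℝ, dotProduct v v = 1 ∧ gg l W - η ≤ qf v W := by
  obtain ⟨t, ⟨v, hv, rfl⟩, ht⟩ := exists_lt_of_lt_csSup (nonemp h W) (sub_lt_self (gg l W) hη)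
  exact ⟨v, hv, ht.le⟩

lemma gg_le (h : Nonempty (KS n l)) (W : Finset (Fin n) → ℝ) {C : ℝ}
    (hC : ∀ v : KS n l → ℝ, dotProduct v v = 1 → qf v W ≤ C) : gg l W ≤ C := by
  refine csSup_le (nonemp h W) ?_
  rintro t ⟨v, hv, rfl⟩
  exact hC v hv

lemma gg_sub_le (h : Nonempty (KS n l)) (W W' : Finset (Fin n) → ℝ) :
    gg l W - gg l W' ≤ 2 * ∑ D ∈ P2 n, |W D - W' D| := by
  rw [sub_le_iff_le_add]
  refine gg_le h W fun v hv => ?_
  have h1 : qf v W = qf v (W - W') + qf v W' := by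
    rw [← qf_add]
    congr 1
    abel
  have h2 := abs_qf_le hv (W - W')
  have h3 := le_gg hv W'
  have h4 := le_abs_self (qf v (W - W'))
  simp only [Pi.sub_apply] at h2
  linarith

lemma gg_congr {W W' : Finset (Fin n) → ℝ} (h : ∀ D ∈ P2 n, W D = W' D) : gg l W = gg l W' := by
  have h1 : ∀ v : KS n l → ℝ, qf v W = qf v W' := fun v => by
    rw [qf_eq, qf_eq]
    exact sum_congr rfl fun D hD => by rw [h D hD]
  unfold gg
  simp_rw [h1]

lemma abs_gg_le (h : Nonempty (KS n l)) (W : Finset (Fin n) → ℝ) :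
    |gg l W| ≤ 2 * ∑ D ∈ P2 n, |W D| := by
  rw [abs_le]
  constructor
  · obtain ⟨I⟩ := h
    have h1 := le_gg (l := l) (v := Pi.single I 1) (by simp) W
    have h2 := abs_qf_le (l := l) (v := Pi.single I 1) (by simp) W
    have h3 := neg_abs_le (qf (Pi.single I 1) W)
    linarith
  · exact gg_le h W fun v hv => (le_abs_self _).trans (abs_qf_le hv W)

lemma gg_cont (h : Nonempty (KS n l)) : Continuous (gg l : (Finset (Fin n) → ℝ) → ℝ) := by
  rw [continuous_iff_continuousAt]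
  intro W0
  refine tendsto_iff_dist_tendsto_zero.2 ?_
  refine squeeze_zero (g := fun W => 2 * ∑ D ∈ P2 n, |W D - W0 D|) (fun _ => dist_nonneg)
    (fun W => ?_) ?_
  · rw [Real.dist_eq, abs_le]
    have h1 := gg_sub_le h W W0
    have h2 := gg_sub_le h W0 W
    have h3 : ∑ D ∈ P2 n, |W0 D - W D| = ∑ D ∈ P2 n, |W D - W0 D| :=
      sum_congr rfl fun D _ => abs_sub_comm _ _
    rw [h3] at h2
    constructor <;> linarith
  · refine Continuous.tendsto' (by fun_prop) _ _ ?_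
    simp

lemma gg_int (h : Nonempty (KS n l)) (a : Finset (Fin n) → ℝ) :
    Integrable (fun Z => gg l (Z + a)) (gm (Finset (Fin n))) := by
  have h1 : Integrable (fun Z : Finset (Fin n) → ℝ => 2 * ∑ D ∈ P2 n, |Z D + a D|)
      (gm (Finset (Fin n))) := by
    refine Integrable.const_mul ?_ _
    refine integrable_finsetSum _ fun D _ => ?_
    exact ((int_coord D).add (integrable_const _)).abs
  refine h1.mono' ((gg_cont h).comp (continuous_id.add continuous_const)).aestronglyMeasurable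
    (Eventually.of_forall fun Z => ?_)
  rw [Real.norm_eq_abs]
  exact abs_gg_le h (Z + a)

lemma gg_int0 (h : Nonempty (KS n l)) : Integrable (fun Z => gg l Z) (gm (Finset (Fin n))) := by
  have := gg_int h (0 : Finset (Fin n) → ℝ)
  simpa using this

/-- gauge invariance -/
lemma gg_gauge (s : Fin n → ℤˣ) (W : Finset (Fin n) → ℝ) :
    gg l (fun D => ch s D * W D) = gg l W := by
  have h1 : ∀ W : Finset (Fin n) → ℝ,
      {t : ℝ | ∃ v : KS n l → ℝ, dotProduct v v = 1 ∧ t = qf v (fun D => ch s D * W D)} ⊆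
        {t : ℝ | ∃ v : KS n l → ℝ, dotProduct v v = 1 ∧ t = qf v W} := by
    rintro W t ⟨v, hv, rfl⟩
    exact ⟨_, (norm_gauge s v).trans hv, qf_gauge s v W⟩
  unfold gg
  congr 1
  refine Set.Subset.antisymm (h1 W) ?_
  have h2 := h1 (fun D => ch s D * W D)
  have h3 : (fun D => ch s D * (ch s D * W D)) = W := by
    funext D
    rw [← mul_assoc, ch_sq, one_mul]
  rw [h3] at h2
  exact h2

/-- the law of the noise is gauge invariant -/
lemma mp_gauge (s : Fin n → ℤˣ) : MeasurePreserving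
    (fun (Z : Finset (Fin n) → ℝ) D => ch s D * Z D) (gm (Finset (Fin n)))
    (gm (Finset (Fin n))) := by
  refine measurePreserving_pi (fun _ => gaussianReal 0 1) (fun _ => gaussianReal 0 1) fun D => ?_
  refine ⟨by fun_prop, ?_⟩
  rw [gaussianReal_map_const_mul]
  congr 1
  · simp
  · ext
    push_cast
    rw [sq, ch_sq, one_mul]

/-- the spike -/
noncomputable def sp (s : Fin n → ℤˣ) (D : Finset (Fin n)) : ℝ := if D ∈ P2 n then ch s D else 0

lemma int_spike (h : Nonempty (KS n l)) (s : Fin n → ℤˣ) (c : ℝ) :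
    ∫ Z, gg l (Z + c • sp s) ∂(gm (Finset (Fin n))) =
      ∫ Z, gg l (fun D => c + Z D) ∂(gm (Finset (Fin n))) := by
  have h1 : ∀ Z : Finset (Fin n) → ℝ, gg l (Z + c • sp s) = gg l (fun D => c + ch s D * Z D) := by
    intro Z
    rw [← gg_gauge s]
    refine gg_congr fun D hD => ?_
    simp only [Pi.add_apply, Pi.smul_apply, sp, hD, if_true, smul_eq_mul]
    have := ch_sq s D
    linear_combination c * this
  simp_rw [h1]
  have hF : Continuous (fun Z : Finset (Fin n) → ℝ => gg l (fun D => c + Z D)) :=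
    (gg_cont h).comp (by fun_prop)
  have h2 := integral_map (μ := gm (Finset (Fin n))) (mp_gauge s).measurable.aemeasurable
    (f := fun Z => gg l (fun D => c + Z D)) hF.aestronglyMeasurable
  rw [(mp_gauge s).map_eq] at h2
  exact h2.symm

/-- the overlap -/
noncomputable def TT (s : Fin n → ℤˣ) : ℝ := ∑ D ∈ P2 n, ch s D

lemma sum_sp (s t : Fin n → ℤˣ) (c : ℝ) :
    ∑ D, (c • sp s) D * (c • sp t) D = c ^ 2 * TT (s * t) := by
  have h1 : ∀ D, (c • sp s) D * (c • sp t) D = if D ∈ P2 n then c ^ 2 * ch (s * t) D else 0 := by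
    intro D
    simp only [Pi.smul_apply, sp, smul_eq_mul, ch_mul]
    split_ifs <;> ring
  simp_rw [h1]
  rw [← sum_filter, filter_mem_eq_inter, univ_inter, ← mul_sum]
  rfl

/-- the averages of the densities -/
noncomputable def yy (c : ℝ) (D : Finset (Fin n)) (Z : Finset (Fin n) → ℝ) : ℝ :=
  (Fintype.card (Fin n → ℤˣ) : ℝ)⁻¹ * ∑ s : Fin n → ℤˣ, ld (c • sp s) Z * ch s D

/-- the pointwise inequality -/
lemma pointwise (h : Nonempty (KS n l)) {c κ : ℝ} (hc : 0 ≤ c) (hκ : 0 < κ)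
    (Z : Finset (Fin n) → ℝ) :
    (Fintype.card (Fin n → ℤˣ) : ℝ)⁻¹ * ∑ s : Fin n → ℤˣ,
      ld (c • sp s) Z * (gg l Z - gg l (Z - c • sp s)) ≤
    c * ((2 * κ)⁻¹ * ∑ D ∈ P2 n, yy c D Z ^ 2 + κ * (l : ℝ) ^ 2) := by
  set K : ℝ := (Fintype.card (Fin n → ℤˣ) : ℝ)⁻¹ with hK
  have hK0 : 0 ≤ K := by positivity
  set A : ℝ := K * ∑ s : Fin n → ℤˣ, ld (c • sp s) Z with hA
  have hA0 : 0 ≤ A := mul_nonneg hK0 (sum_nonneg fun s _ => (ld_pos _ _).le)
  refine le_of_forall_pos_le_add fun ε hε => ?_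
  have hη : 0 < ε / (A + 1) := by positivity
  obtain ⟨v, hv, hv2⟩ := gg_near h Z hη
  have h1 : ∀ s : Fin n → ℤˣ, gg l Z - gg l (Z - c • sp s) ≤
      ε / (A + 1) + c * ∑ D ∈ P2 n, ch s D * xx v D := by
    intro s
    have h2 := le_gg hv (Z - c • sp s)
    have h3 : qf v Z = qf v (Z - c • sp s) + c * ∑ D ∈ P2 n, ch s D * xx v D := by
      have h4 : qf v (sp s) = ∑ D ∈ P2 n, ch s D * xx v D := by
        rw [qf_eq]
        refine sum_congr rfl fun D hD => ?_
        rw [sp, if_pos hD]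
      rw [← h4, ← qf_smul, ← qf_add]
      congr 1
      abel
    linarith
  have h5 : K * ∑ s : Fin n → ℤˣ, ld (c • sp s) Z * (gg l Z - gg l (Z - c • sp s)) ≤
      A * (ε / (A + 1)) + c * ∑ D ∈ P2 n, yy c D Z * xx v D := by
    have h6 : ∑ s : Fin n → ℤˣ, ld (c • sp s) Z * (gg l Z - gg l (Z - c • sp s)) ≤
        ∑ s : Fin n → ℤˣ, ld (c • sp s) Z * (ε / (A + 1) + c * ∑ D ∈ P2 n, ch s D * xx v D) :=
      sum_le_sum fun s _ => mul_le_mul_of_nonneg_left (h1 s) (ld_pos _ _).le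
    have h7 := mul_le_mul_of_nonneg_left h6 hK0
    refine h7.trans (le_of_eq ?_)
    simp_rw [mul_add, sum_add_distrib]
    rw [mul_add, ← sum_mul, ← mul_assoc, ← hA]
    congr 1
    have h8 : ∀ D ∈ P2 n, yy c D Z * xx v D =
        ∑ s : Fin n → ℤˣ, K * (ld (c • sp s) Z * (ch s D * xx v D)) := by
      intro D _
      rw [yy, ← hK, mul_assoc, sum_mul, mul_sum]
      exact sum_congr rfl fun s _ => by ring
    rw [sum_congr rfl h8, sum_comm, mul_sum, mul_sum]
    refine sum_congr rfl fun s _ => ?_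
    rw [← mul_sum, ← mul_sum]
    ring
  have h9 : A * (ε / (A + 1)) ≤ ε := by
    rw [mul_div_assoc', div_le_iff₀ (by positivity)]
    nlinarith
  have h10 : ∑ D ∈ P2 n, yy c D Z * xx v D ≤
      (2 * κ)⁻¹ * ∑ D ∈ P2 n, yy c D Z ^ 2 + κ * (l : ℝ) ^ 2 := by
    have h11 : ∀ D ∈ P2 n, yy c D Z * xx v D ≤
        (2 * κ)⁻¹ * yy c D Z ^ 2 + (κ / 2) * xx v D ^ 2 := by
      intro D _
      have h12 : 0 ≤ (2 * κ)⁻¹ * (yy c D Z - κ * xx v D) ^ 2 := by positivity
      have h13 : (2 * κ)⁻¹ * (yy c D Z - κ * xx v D) ^ 2 =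
          (2 * κ)⁻¹ * yy c D Z ^ 2 - yy c D Z * xx v D + (κ / 2) * xx v D ^ 2 := by
        field_simp
        ring
      linarith
    refine (sum_le_sum h11).trans ?_
    rw [sum_add_distrib, ← mul_sum, ← mul_sum]
    have h14 := sum_xx_sq hv
    have h15 : (κ / 2) * ∑ D ∈ P2 n, xx v D ^ 2 ≤ (κ / 2) * (2 * (l : ℝ) ^ 2) :=
      mul_le_mul_of_nonneg_left h14 (by positivity)
    linarith
  have h16 := mul_le_mul_of_nonneg_left h10 hc
  linarith

end Pool.Agent.Q8.KK
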